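import Mathlib
import Pool.Agent.H.MP_8cb80e_co.Defs
import Pool.Agent.H.MP_8cb80e_co.Final

set_option autoImplicit false

/-!
# Peak polynomials with only real roots

Full positive answer to Q1: if all roots of the peak polynomial of a nonempty admissible set `S`
are real, then they are integers and `S` lies in the family of the question.

Outline of the proof.  For `x > max S` one has `p_S(x) = (x)_(m+1) ∫_0^1 t^(x-m-1) w_S(t) dt`,
`m = max S`, where `w_S` is a nonnegative symmetric concave function obtained by iterated
integration along the gaps of `S`.  This gives the values of `p_S` at all integers as moments and
shows that `p_S` has no roots in certain intervals.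

* If the last gap different from `2` is at least `4` and is followed by at most three gaps of `2`,
  let `a` be the element where it ends and `c` the element where it starts: there are no roots
  in `(a-3, a-1)`, and log-concavity at `a-3, a-2, a-1`, after division by `x-a` and `x-c`,
  contradicts the moment formula.
* If `S` ends with at least four gaps of `2`, then the only roots of `p_S` above `m-7` are
  `m-6, m-4, m-2, m`, the outer two being simple, and the resulting third-difference inequality
  for the values at `m-1, m-3, m-5, m-7` contradicts an inequality between the moments.
* The remaining cases are a gap of three followed by few gaps of two, where everything is explicit.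
-/

namespace Pool.Agent.Results.MP_8cb80e_co.RealPeak

open Polynomial Pool.Agent.H.MP_8cb80e_co

/-- **Main theorem.** Every nonempty admissible set `S` has a unique peak polynomial `p`, and if
all complex roots of `p` are real, then all of them are integers and `S` belongs to the family
`𝓛` (`InFamily`). -/
theorem result (S : Finset ℕ) (hS : S.Nonempty) (hadm : Admissible S) :
    ∃ p : ℚ[X], IsPeakPolynomial S p ∧ (∀ p' : ℚ[X], IsPeakPolynomial S p' → p' = p) ∧
      ((∀ z : ℂ, aeval z p = 0 → z.im = 0) →
        (∀ z : ℂ, aeval z p = 0 → ∃ k : ℤ, z = k) ∧ InFamily S) :=
  main S hS hadm

end Pool.Agent.Results.MP_8cb80e_co.RealPeak
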